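import Pool.Agent.D0H97.ERW.Fin

set_option autoImplicit false

open MeasureTheory ProbabilityTheory Filter Topology
open scoped ENNReal BigOperators

namespace Pool.Agent.Results.MP_758450_pr.RightTransient

open Pool.Agent.D0H97.ERW

/-- The law of the independent trials `B_1, B_2, …`: a point of `ℕ → Bool` lists the outcomes, its
entry number `i` being the trial `B_(i+1)`, which is `true` (a success) with probability
`p (i + 1)`. -/
noncomputable def trials (p : ℕ → ℝ) : Measure (ℕ → Bool) :=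
  Measure.infinitePi (fun i => coin (p (i + 1)))

/-- The expected number of successes before the `x`-th failure. -/
noncomputable def meanU (p : ℕ → ℝ) (x : ℕ) : ℝ := ∫ τ, (U x τ : ℝ) ∂(trials p)

/-- `ρ(x)` for a given value `m` of `μ`. -/
noncomputable def rhoU (p : ℕ → ℝ) (m : ℝ) (x : ℕ) : ℝ :=
  ∫ τ, ((U x τ : ℝ) - m * x) ∂(trials p)

/-- `ν(x)` for a given value `m` of `μ`. -/
noncomputable def nuU (p : ℕ → ℝ) (m : ℝ) (x : ℕ) : ℝ :=
  (∫ τ, ((U x τ : ℝ) - m * x) ^ 2 ∂(trials p)) / x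

lemma trials_pp : trials pp = seqLaw qq := rfl

lemma int_sq (x : ℕ) : Integrable (fun τ => (U x τ : ℝ) ^ 2) (seqLaw qq) := by
  have h := int_U2 good_qq (x := max x 2) (le_max_right _ _)
  apply Integrable.mono' h
  · have := measurable_U x
    have hm : Measurable (fun τ => (U x τ : ℝ) ^ 2) := by fun_prop
    exact hm.aestronglyMeasurable
  · filter_upwards [good_qq.ae_inff] with τ hτ
    rw [Real.norm_of_nonneg (sq_nonneg _)]
    have h1 : (U x τ : ℝ) ≤ U (max x 2) τ := by exact_mod_cast U_mono hτ (le_max_left x 2)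
    have h2 : (0:ℝ) ≤ U x τ := by positivity
    have h3 : (0:ℝ) ≤ (max x 2 : ℕ) := by positivity
    apply pow_le_pow_left₀ h2
    linarith

/-- There is a uniformly elliptic identically piled environment with `μ = θ = 1` in which the
excited random walk is transient to the right. -/
theorem result : ∃ p : ℕ → ℝ,
    (∃ ε : ℝ, 0 < ε ∧ ∀ i, 1 ≤ i → ε ≤ p i ∧ p i ≤ 1 - ε) ∧
    (∀ x : ℕ, Integrable (fun τ => (U x τ : ℝ) ^ 2) (trials p)) ∧
    Tendsto (fun x : ℕ => meanU p x / x) atTop (𝓝 1) ∧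
    Tendsto (fun x : ℕ => 2 * rhoU p 1 x / nuU p 1 x) atTop (𝓝 1) ∧
    (∃ (Ω : Type) (_ : MeasurableSpace Ω) (P : Measure Ω) (X : ℕ → Ω → ℤ),
      IsProbabilityMeasure P ∧ IsERW p P X) ∧
    (∀ (Ω : Type) [MeasurableSpace Ω] (P : Measure Ω) [IsProbabilityMeasure P] (X : ℕ → Ω → ℤ),
      IsERW p P X → ∀ᵐ w ∂P, Tendsto (fun n => X n w) atTop atTop) := by
  refine ⟨pp, ⟨1 / 4, by norm_num, fun i _ => ⟨qq_lo _, ?_⟩⟩, ?_, ?_, ?_, ?_, ?_⟩
  · have := qq_hi (i - 1)
    unfold pp
    linarith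
  · intro x
    rw [trials_pp]
    exact int_sq x
  · unfold meanU
    rw [trials_pp]
    exact mu_tendsto
  · have h := theta_tendsto
    unfold rho vv at h
    unfold rhoU nuU
    rw [trials_pp]
    simpa only [one_mul] using h
  · exact ⟨_, _, envLaw qq, _, inferInstance, isERW_W⟩
  · intro Ω _ P _ X h
    exact h.transient

end Pool.Agent.Results.MP_758450_pr.RightTransient
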